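import Pool.Agent.K7.H65.EC_FIRST

set_option autoImplicit false

namespace Pool.Agent.K7.H65.ECACC

open Finset Pool.Agent.K7.H80.EC Pool.Agent.K7.H65.ECFIRST

theorem t : StAcc := by
  intro d σ A hA h a ha
  refine accept σ a fun c hc hca => ?_
  by_contra hcon
  push Not at hcon
  refine hA ⟨c, hc, fun f hf => ?_⟩
  by_cases hfa : f = a
  · rw [hfa]
    exact ha
  · by_contra hfA
    have h1 := lt_of_mem σ _ (hcon f hf hfa)
    have h2 : f ∈ nb a := by
      classical
      unfold nb
      refine mem_filter.2 ?_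
      exact ⟨mem_univ _, Or.inr ⟨c, hc, hca, hf⟩⟩
    have h3 := h a ha a ha f h2 hfA
    exact absurd (Fin.lt_def.1 h3) (by omega)

end Pool.Agent.K7.H65.ECACC
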