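import Pool.Agent.K7.H80.EC.Stm

/-!
# The `Q_2`-free process: acceptance of edges
-/

set_option autoImplicit false

namespace Pool.Agent.K7.H65.ECFIRST

open Finset Pool.Agent.K7.H80.EC

variable {d : ℕ}

/-- the graph after `t` steps -/
noncomputable def g (σ : Ord d) (t : ℕ) : Finset (E d) := ((List.ofFn σ).take t).foldl step ∅

lemma g_zero (σ : Ord d) : g σ 0 = ∅ := by
  simp [g]

lemma g_succ (σ : Ord d) (t : ℕ) (ht : t < Fintype.card (E d)) :
    g σ (t + 1) = step (g σ t) (σ ⟨t, ht⟩) := by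
  unfold g
  rw [List.take_add_one, List.foldl_append]
  have h : (List.ofFn σ)[t]? = some (σ ⟨t, ht⟩) := by
    rw [List.getElem?_ofFn]
    simp [ht]
  rw [h]
  rfl

lemma g_ge (σ : Ord d) (t : ℕ) (ht : Fintype.card (E d) ≤ t) : g σ t = final σ := by
  unfold g final
  rw [List.take_of_length_le]
  simpa using ht

lemma subset_step (G : Finset (E d)) (e : E d) : G ⊆ step G e := by
  unfold step
  split
  · exact subset_insert _ _
  · exact Subset.rfl

lemma step_subset (G : Finset (E d)) (e : E d) {f : E d} (hf : f ∈ step G e) : f ∈ G ∨ f = e := by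
  unfold step at hf
  split at hf
  · rcases mem_insert.1 hf with h | h
    · exact Or.inr h
    · exact Or.inl h
  · exact Or.inl hf

lemma g_mono (σ : Ord d) (t : ℕ) : g σ t ⊆ g σ (t + 1) := by
  by_cases ht : t < Fintype.card (E d)
  · rw [g_succ σ t ht]
    exact subset_step _ _
  · rw [g_ge σ t (not_lt.1 ht), g_ge σ (t + 1) (by omega)]

lemma g_subset_final (σ : Ord d) (t : ℕ) : g σ t ⊆ final σ := by
  by_cases ht : Fintype.card (E d) ≤ t
  · rw [g_ge σ t ht]
  · have h : ∀ n, g σ t ⊆ g σ (t + n) := by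
      intro n
      induction n with
      | zero => exact Subset.rfl
      | succ n ih => exact ih.trans (g_mono σ (t + n))
    have h2 := h (Fintype.card (E d) - t)
    rw [g_ge σ (t + (Fintype.card (E d) - t)) (by omega)] at h2
    exact h2

lemma lt_of_mem (σ : Ord d) (t : ℕ) {f : E d} (hf : f ∈ g σ t) : (σ.symm f).val < t := by
  induction t with
  | zero => simp [g_zero] at hf
  | succ t ih =>
    by_cases ht : t < Fintype.card (E d)
    · rw [g_succ σ t ht] at hf
      rcases step_subset _ _ hf with h | h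
      · exact (ih h).trans (Nat.lt_succ_self t)
      · subst h
        simp
    · exact lt_of_lt_of_le (σ.symm f).isLt (by omega)

lemma sqFree_empty : SqFree (∅ : Finset (E d)) := by
  rintro ⟨c, hc, h⟩
  unfold Copies at hc
  rw [mem_filter] at hc
  obtain ⟨-, h2, h3⟩ := hc
  obtain ⟨i, hi⟩ := card_pos.1 (by omega : 0 < c.1.card)
  exact absurd (h ⟨(c.2, i), h3 i hi⟩ ⟨hi, fun _ _ => rfl⟩) (notMem_empty _)

lemma sqFree_g (σ : Ord d) (t : ℕ) : SqFree (g σ t) := by
  induction t with
  | zero => rw [g_zero]; exact sqFree_empty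
  | succ t ih =>
    by_cases ht : t < Fintype.card (E d)
    · rw [g_succ σ t ht]
      unfold step
      split
      · assumption
      · exact ih
    · rw [g_ge σ (t + 1) (by omega), ← g_ge σ t (not_lt.1 ht)]
      exact ih

/-- acceptance -/
lemma accept (σ : Ord d) (e : E d)
    (h : ∀ c ∈ Copies d 2, InCopy c e → ∃ f, InCopy c f ∧ f ≠ e ∧ f ∉ g σ (σ.symm e)) :
    e ∈ final σ := by
  have hs : SqFree (insert e (g σ (σ.symm e))) := by
    rintro ⟨c, hc, hall⟩
    by_cases he : InCopy c e
    · obtain ⟨f, h1, h2, h3⟩ := h c hc he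
      rcases mem_insert.1 (hall f h1) with h4 | h4
      · exact h2 h4
      · exact h3 h4
    · refine sqFree_g σ (σ.symm e) ⟨c, hc, fun f hf => ?_⟩
      rcases mem_insert.1 (hall f hf) with h4 | h4
      · exact absurd (h4 ▸ hf) he
      · exact h4
  apply g_subset_final σ ((σ.symm e).val + 1)
  rw [g_succ σ _ (σ.symm e).isLt]
  have h2 : σ ⟨(σ.symm e).val, (σ.symm e).isLt⟩ = e := by simp
  rw [h2]
  unfold step
  rw [if_pos (by convert hs)]
  exact mem_insert_self _ _

/-- a copy of `Q_2` has another edge -/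
lemma exists_other (c : Finset (Fin d) × (Fin d → Bool)) (hc : c ∈ Copies d 2) (e : E d)
    (he : InCopy c e) : ∃ f, InCopy c f ∧ f ≠ e := by
  unfold Copies at hc
  rw [mem_filter] at hc
  obtain ⟨-, h2, h3⟩ := hc
  obtain ⟨i, hi, hij⟩ : ∃ i ∈ c.1, i ≠ e.1.2 := by
    by_contra hcon
    push Not at hcon
    have h4 : c.1 ⊆ {e.1.2} := fun i hi => mem_singleton.2 (hcon i hi)
    have h5 := card_le_card h4
    rw [card_singleton] at h5
    omega
  refine ⟨⟨(Function.update e.1.1 i (!e.1.1 i), e.1.2), ?_⟩, ⟨he.1, fun l hl => ?_⟩, fun h => ?_⟩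
  · show Function.update e.1.1 i (!e.1.1 i) e.1.2 = false
    rw [Function.update_of_ne (Ne.symm hij)]
    exact e.2
  · show Function.update e.1.1 i (!e.1.1 i) l = c.2 l
    have hli : l ≠ i := fun h => hl (h ▸ hi)
    rw [Function.update_of_ne hli]
    exact he.2 l hl
  · have h6 := congrArg (fun f : E d => f.1.1 i) h
    simp at h6

theorem t : StFirst := by
  intro d σ e h
  refine accept σ e fun c hc he => ?_
  obtain ⟨f, hf, hne⟩ := exists_other c hc e he
  refine ⟨f, hf, hne, fun hg => ?_⟩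
  have h1 := lt_of_mem σ _ hg
  have h2 : f ∈ nb e := by
    classical
    unfold nb
    refine mem_filter.2 ?_
    exact ⟨mem_univ _, Or.inr ⟨c, hc, he, hf⟩⟩
  have h3 := h f h2 hne
  exact absurd (Fin.lt_def.1 h3) (by omega)

end Pool.Agent.K7.H65.ECFIRST
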