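import Pool.Agent.K7.H80.EC.Stm2
import Pool.Agent.K7.H65.EC_FIRST

set_option autoImplicit false

namespace Pool.Agent.K7.H65.ECFIRST2

open Finset Pool.Agent.K7.H80.EC Pool.Agent.K7.H65.ECFIRST

theorem t : StFirst2 := by
  intro d σ e M hM h
  refine accept σ e fun c hc he => ?_
  obtain ⟨f, hf, hne, hMf⟩ := h c hc he
  refine ⟨f, hf, hne, fun hg => ?_⟩
  have h1 := lt_of_mem σ _ hg
  omega

end Pool.Agent.K7.H65.ECFIRST2
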