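import Pool.Agent.K7.H65.EC_FIRST

set_option autoImplicit false

namespace Pool.Agent.K7.H65.ECFREE

open Finset Pool.Agent.K7.H80.EC Pool.Agent.K7.H65.ECFIRST

theorem t : StFree := by
  intro d σ
  rw [← g_ge σ _ le_rfl]
  exact sqFree_g σ _

end Pool.Agent.K7.H65.ECFREE
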