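import Pool.Agent.K7.H80.EC.Stm2

set_option autoImplicit false

namespace Pool.Agent.K7.H65.ECMIX

open Finset Pool.Agent.K7.H80.EC

open Classical in
/-- the set of the first `M` elements -/
noncomputable def seg {α : Type} [Fintype α] (M : ℕ) (σ : Fin (Fintype.card α) ≃ α) : Finset α :=
  univ.filter fun a : α => (σ.symm a : ℕ) < M

lemma mem_seg {α : Type} [Fintype α] (M : ℕ) (σ : Fin (Fintype.card α) ≃ α) (a : α) :
    a ∈ seg M σ ↔ (σ.symm a : ℕ) < M := by
  classical
  unfold seg
  rw [mem_filter]
  simp

lemma card_seg {α : Type} [Fintype α] (M : ℕ) (hM : M ≤ Fintype.card α)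
    (σ : Fin (Fintype.card α) ≃ α) : (seg M σ).card = M := by
  classical
  have h : (seg M σ).map (σ.symm.toEmbedding.trans Fin.valEmbedding) = range M := by
    ext i
    rw [mem_map, mem_range]
    constructor
    · rintro ⟨a, ha, rfl⟩
      exact (mem_seg M σ a).1 ha
    · intro hi
      refine ⟨σ ⟨i, hi.trans_le hM⟩, (mem_seg M σ _).2 (by simpa using hi), by simp⟩
  rw [← card_map, h, card_range]

open Classical in
/-- the number of the orderings with initial segment `W` -/
noncomputable def cnt {α : Type} [Fintype α] (M : ℕ) (W : Finset α) : ℕ :=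
  (univ.filter fun σ : Fin (Fintype.card α) ≃ α => seg M σ = W).card

lemma cnt_eq {α : Type} [Fintype α] (M : ℕ) (W W' : Finset α) (h : W.card = W'.card) :
    cnt M W = cnt M W' := by
  classical
  obtain ⟨g, hg⟩ : ∃ g : Equiv.Perm α, ∀ x, g x ∈ W' ↔ x ∈ W := by
    have he : Nonempty ({x // x ∈ W} ≃ {x // x ∈ W'}) :=
      Fintype.card_eq.1 (by rw [Fintype.card_coe, Fintype.card_coe, h])
    obtain ⟨e⟩ := he
    refine ⟨e.extendSubtype, fun x => ⟨fun hx => ?_, fun hx => e.extendSubtype_mem x hx⟩⟩
    by_contra hx2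
    exact e.extendSubtype_not_mem x hx2 hx
  unfold cnt
  refine card_bijective (fun σ => σ.trans g) ?_ ?_
  · refine ⟨fun σ τ hστ => ?_, fun σ => ⟨σ.trans g.symm, ?_⟩⟩
    · ext i
      have h1 := congrArg (fun ρ : Fin (Fintype.card α) ≃ α => ρ i) hστ
      simpa using h1
    · ext i
      simp
  · intro σ
    simp only [mem_filter, mem_univ, true_and]
    constructor
    · intro h1
      ext a
      rw [mem_seg]
      obtain ⟨x, rfl⟩ := g.surjective a
      rw [hg x, ← h1, mem_seg]
      simp
    · intro h1
      ext x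
      rw [← hg x, ← h1, mem_seg, mem_seg]
      simp

open Classical in
lemma total {α : Type} [Fintype α] (M : ℕ) (hM : M ≤ Fintype.card α) (W : Finset α)
    (hW : W.card = M) :
    Fintype.card (Fin (Fintype.card α) ≃ α) = (Fintype.card α).choose M * cnt M W := by
  classical
  have h := card_eq_sum_card_fiberwise (s := (univ : Finset (Fin (Fintype.card α) ≃ α)))
    (t := powersetCard M (univ : Finset α)) (f := seg M)
    (fun σ _ => by
      simp only [mem_coe, mem_powersetCard_univ]
      exact card_seg M hM σ)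
  rw [card_univ] at h
  rw [h]
  have h2 : ∀ W' ∈ powersetCard M (univ : Finset α),
      (univ.filter fun σ : Fin (Fintype.card α) ≃ α => seg M σ = W').card = cnt M W := by
    intro W' hW'
    rw [mem_powersetCard_univ] at hW'
    rw [cnt_eq M W W' (by rw [hW, hW'])]
    unfold cnt
    congr 1
  rw [sum_congr rfl h2, sum_const, card_powersetCard, card_univ, smul_eq_mul]

theorem t : StMix := by
  classical
  intro α _ F p hp0 hp1
  set n := Fintype.card α with hn
  set G : Finset (Fin (Fintype.card α) ≃ α) := univ.filter fun σ =>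
    ∀ M : ℕ, seg M σ ∈ F with hG
  have hGeq : (univ.filter fun σ : Fin (Fintype.card α) ≃ α =>
      ∀ M : ℕ, (univ.filter fun a : α => (σ.symm a : ℕ) < M) ∈ F).card = G.card := by
    rw [hG]
    congr 1
  have key : ∀ M ∈ range (n + 1), (n.choose M : ℝ) * (G.card : ℝ) ≤
      (Fintype.card (Fin (Fintype.card α) ≃ α) : ℝ) * ((F.filter fun W => W.card = M).card : ℝ) := by
    intro M hM
    rw [mem_range] at hM
    have hMn : M ≤ Fintype.card α := by omega
    have h1 := card_eq_sum_card_fiberwise (s := G) (t := F.filter fun W => W.card = M) (f := seg M)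
      (fun σ hσ => by
        rw [mem_coe, hG, mem_filter] at hσ
        simp only [mem_coe, mem_filter]
        exact ⟨hσ.2 M, card_seg M hMn σ⟩)
    have h2 : n.choose M * G.card ≤
        Fintype.card (Fin (Fintype.card α) ≃ α) * (F.filter fun W => W.card = M).card := by
      rw [h1, mul_sum]
      have h3 : ∀ W ∈ F.filter (fun W => W.card = M),
          n.choose M * (G.filter fun σ => seg M σ = W).card ≤
            Fintype.card (Fin (Fintype.card α) ≃ α) := by
        intro W hW
        rw [total M hMn W (mem_filter.1 hW).2]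
        refine Nat.mul_le_mul le_rfl ?_
        unfold cnt
        refine card_le_card fun σ hσ => ?_
        rw [mem_filter] at hσ ⊢
        exact ⟨mem_univ _, hσ.2⟩
      calc _ ≤ ∑ W ∈ F.filter (fun W => W.card = M),
            Fintype.card (Fin (Fintype.card α) ≃ α) := sum_le_sum h3
        _ = _ := by rw [sum_const, smul_eq_mul, mul_comm]
    exact_mod_cast h2
  have hsum : ∑ W ∈ F, wt α p W = ∑ M ∈ range (n + 1),
      ((F.filter fun W => W.card = M).card : ℝ) * (p ^ M * (1 - p) ^ (n - M)) := by
    rw [← sum_fiberwise_of_maps_to (s := F) (t := range (n + 1)) (g := fun W => W.card)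
      (fun W _ => by
        rw [mem_range]
        have := card_le_univ W
        omega)]
    refine sum_congr rfl fun M _ => ?_
    have h4 : ∀ W ∈ F.filter (fun W => W.card = M), wt α p W = p ^ M * (1 - p) ^ (n - M) := by
      intro W hW
      unfold wt
      rw [(mem_filter.1 hW).2]
    rw [sum_congr rfl h4, sum_const, nsmul_eq_mul]
  rw [hGeq, hsum, mul_sum]
  have hbin : ∑ M ∈ range (n + 1), (n.choose M : ℝ) * (p ^ M * (1 - p) ^ (n - M)) = 1 := by
    have h5 := add_pow p (1 - p) n
    rw [show p + (1 - p) = 1 by ring, one_pow] at h5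
    refine Eq.trans ?_ h5.symm
    exact sum_congr rfl fun M _ => by ring
  calc (G.card : ℝ) = (∑ M ∈ range (n + 1), (n.choose M : ℝ) * (p ^ M * (1 - p) ^ (n - M))) *
        (G.card : ℝ) := (one_mul (G.card : ℝ)).symm.trans
          (congrArg (fun x : ℝ => x * (G.card : ℝ)) hbin.symm)
    _ = ∑ M ∈ range (n + 1),
        ((n.choose M : ℝ) * (G.card : ℝ)) * (p ^ M * (1 - p) ^ (n - M)) := by
        rw [sum_mul]
        exact sum_congr rfl fun M _ => by ring
    _ ≤ _ := by
        refine sum_le_sum fun M hM => ?_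
        refine (mul_le_mul_of_nonneg_right (key M hM) ?_).trans_eq (mul_assoc _ _ _)
        exact mul_nonneg (pow_nonneg hp0 _) (pow_nonneg (sub_nonneg.2 hp1) _)

end Pool.Agent.K7.H65.ECMIX
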