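import Pool.Agent.K7.H84.GG.Stm

/-! Project GG, job KB: the coefficient `kappa` is `beta` (Step 8). -/

set_option autoImplicit false

namespace Pool.Agent.K7.H65.GGKB

open Finset DC813 Pool.Agent.K7.H84.GG

lemma mem_fl {α : Type} [DecidableEq α] {r : Finset α → ℕ} {E F : Finset α} :
    F ∈ fl r E ↔ F ⊆ E ∧ ∀ e ∈ E, e ∉ F → r F < r (insert e F) := by
  unfold fl
  rw [mem_filter, mem_powerset]

lemma self_fl {α : Type} [DecidableEq α] (r : Finset α → ℕ) (E : Finset α) : E ∈ fl r E :=
  mem_fl.2 ⟨subset_refl _, fun _ h1 h2 => absurd h1 h2⟩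

lemma lt_of_fl {α : Type} [DecidableEq α] {r : Finset α → ℕ} (hr : IsRk r) {E F : Finset α}
    (hF : F ∈ fl r E) (hne : F ≠ E) : r F < r E := by
  obtain ⟨h1, h2⟩ := mem_fl.1 hF
  obtain ⟨e, he, heF⟩ : ∃ e ∈ E, e ∉ F := by
    by_contra h
    push Not at h
    exact hne (subset_antisymm h1 h)
  exact (h2 e he heF).trans_le (hr.mono _ _ (insert_subset he h1))

lemma mc_self {α : Type} [DecidableEq α] (r : Finset α → ℕ) (E : Finset α) : mc r E E = 1 := by
  classical
  unfold mc mu con
  simp [filter_singleton]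

lemma main (hKap : StKap) (hW : StWeis) (hI : StID1) (α : Type) [DecidableEq α]
    (r : Finset α → ℕ) (L : Finset α) (p : α) (n : ℕ) :
    ∀ E : Finset α, r E = n → Ctx r E L p → IH α (r E) → kappa r E L p = beta r E := by
  induction n using Nat.strong_induction_on with
  | _ n ih =>
    intro E hE hc hIH
    have hs1 : Sub (α := α) (fun _ => (1 : ℤ)) := fun A B => le_refl _
    have hs2 : Sub (α := α) (fun _ => (-1 : ℤ)) := fun A B => le_refl _
    have k1 := hKap α r E L p _ hc hIH hs1
    have k2 := hKap α r E L p _ hc hIH hs2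
    have w := hW α r E p hc.hr hc.hp (hc.lp p hc.hp)
    have i1 := hI α r E p hc.hr hc.lp hc.hp
    simp only [mul_one] at k1
    simp only [mul_neg, mul_one, sum_neg_distrib] at k2
    have hsplit : ∑ F ∈ (fl r E).filter (fun F => p ∈ F), beta r F * mc r E F =
        ∑ F ∈ (fl r E).filter (fun F => p ∈ F ∧ ¬ L ⊆ F), beta r F * mc r E F +
          ∑ F ∈ (fl r E).filter (fun F => L ⊆ F), beta r F * mc r E F := by
      rw [← sum_filter_add_sum_filter_not ((fl r E).filter (fun F => p ∈ F)) (fun F => ¬ L ⊆ F),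
        filter_filter, filter_filter]
      congr 1
      refine sum_congr ?_ fun _ _ => rfl
      ext F
      simp only [mem_filter, not_not]
      constructor
      · rintro ⟨h1, -, h3⟩
        exact ⟨h1, h3⟩
      · rintro ⟨h1, h3⟩
        exact ⟨h1, h3 hc.hpL, h3⟩
    have hEm : E ∈ (fl r E).filter (fun F => L ⊆ F) :=
      mem_filter.2 ⟨self_fl r E, (mem_fl.1 hc.hL).1⟩
    have e1 : ∑ F ∈ (fl r E).filter (fun F => L ⊆ F), kappa r F L p * mc r E F =
        kappa r E L p + ∑ F ∈ ((fl r E).filter (fun F => L ⊆ F)).erase E,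
          kappa r F L p * mc r E F := by
      rw [← add_sum_erase _ _ hEm, mc_self, mul_one]
    have e2 : ∑ F ∈ (fl r E).filter (fun F => L ⊆ F), beta r F * mc r E F =
        beta r E + ∑ F ∈ ((fl r E).filter (fun F => L ⊆ F)).erase E,
          beta r F * mc r E F := by
      rw [← add_sum_erase _ _ hEm, mc_self, mul_one]
    have e3 : ∑ F ∈ ((fl r E).filter (fun F => L ⊆ F)).erase E, kappa r F L p * mc r E F =
        ∑ F ∈ ((fl r E).filter (fun F => L ⊆ F)).erase E, beta r F * mc r E F := by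
      refine sum_congr rfl fun F hF => ?_
      obtain ⟨hne, hF⟩ := mem_erase.1 hF
      obtain ⟨hF, hLF⟩ := mem_filter.1 hF
      have hlt := lt_of_fl hc.hr hF hne
      obtain ⟨hFE, -⟩ := mem_fl.1 hF
      have hcF : Ctx r F L p :=
        { hr := hc.hr
          lp := fun x hx => hc.lp x (hFE hx)
          hp := hLF hc.hpL
          hL := mem_fl.2 ⟨hLF, fun e he heL => (mem_fl.1 hc.hL).2 e (hFE he) heL⟩
          hL2 := hc.hL2
          hpL := hc.hpL }
      rw [ih (r F) (by omega) F rfl hcF (fun m hm => hIH m (hm.trans hlt))]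
    linarith

/-- Step 8. -/
theorem t (hKap : StKap) (hW : StWeis) (hI : StID1) : StKB :=
  fun α _ r E L p hc hIH => main hKap hW hI α r L p (r E) E rfl hc hIH

end Pool.Agent.K7.H65.GGKB
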