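import Mathlib

set_option autoImplicit false

/-!
# The equation `(N - p) (1 + p + ... + p ^ (m - 1)) = 1 + A p ^ e + B p ^ f`

`N`, `A`, `B` are powers of `2`, `2 A ≤ N`, `2 B ≤ N`, and `p` is odd. Here `m = n + 3`, `t = p ^ (n + 1)`,
`s = 1 + p + ... + p ^ n`.
-/

namespace Pool.Agent.K7.H65.NearPerfect

/-- `f ≤ m - 2` -/
lemma case1 {p s t N d₁ d₂ : ℤ} (hp : 3 ≤ p) (hs : 1 ≤ s) (ht : p ≤ t) (hN : p < N)
    (h1 : 2 * d₁ ≤ N * t) (h2 : 2 * d₂ ≤ N * t) (hne : d₁ ≠ d₂)
    (h : (N - p) * (s + t + p * t) = 1 + d₁ + d₂) : False := by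
  have hp0 : 0 < p := by linarith
  have ht0 : 0 < t := by linarith
  have h3 : 1 + d₁ + d₂ ≤ N * t := by
    rcases lt_or_gt_of_ne hne with h' | h' <;> linarith
  have h4 : (N - p) * (1 + t + p * t) ≤ (N - p) * (s + t + p * t) :=
    mul_le_mul_of_nonneg_left (by linarith) (by linarith)
  have h5 : (N - p - 1) * (1 + p * t) ≥ 0 := mul_nonneg (by linarith) (by positivity)
  nlinarith

/-- `e = f = m - 1` -/
lemma case2 {p s t N M : ℤ} (hp : 3 ≤ p) (hs : 1 ≤ s) (ht : p ≤ t) (hN : 1 + p * t ≤ N)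
    (h1 : 4 * M ≤ 3 * N) (h : (N - p) * (s + t + p * t) = 1 + M * (p * t)) : False := by
  have hp0 : 0 < p := by linarith
  have ht0 : 0 < t := by linarith
  have hpt : p ≤ p * t := by nlinarith
  have h4 : (N - p) * (1 + t + p * t) ≤ (N - p) * (s + t + p * t) :=
    mul_le_mul_of_nonneg_left (by linarith) (by linarith)
  have h5 : 4 * M * (p * t) ≤ 3 * N * (p * t) := mul_le_mul_of_nonneg_right h1 (by positivity)
  have h6 : N * (4 + 4 * t + p * t) ≤ 4 + 4 * p + 4 * (p * t) + 4 * p * (p * t) := by nlinarith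
  have h7 : (1 + p * t) * (4 + 4 * t + p * t) ≤ N * (4 + 4 * t + p * t) :=
    mul_le_mul_of_nonneg_right hN (by positivity)
  have h8 : p * (p * t) ≤ t * (p * t) := mul_le_mul_of_nonneg_right ht (by positivity)
  nlinarith

/-- `f = m - 1`, `e ≤ m - 2`: a bound -/
lemma case3a {p s t N X B : ℤ} (hp : 3 ≤ p) (hs : 1 ≤ s) (ht : p ≤ t)
    (h1 : 2 * X ≤ N * t) (h2 : 2 * B ≤ N)
    (h : (N - p) * (s + t + p * t) = 1 + X + B * (p * t)) : N < 2 * p := by
  by_contra hcon
  push Not at hcon
  have hp0 : 0 < p := by linarith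
  have ht0 : 0 < t := by linarith
  have h4 : (N - p) * (1 + t + p * t) ≤ (N - p) * (s + t + p * t) :=
    mul_le_mul_of_nonneg_left (by linarith) (by linarith)
  have h5 : 2 * B * (p * t) ≤ N * (p * t) := mul_le_mul_of_nonneg_right h2 (by positivity)
  have h6 : (N - 2 * p) * (2 + t + p * t) ≥ 0 := mul_nonneg (by linarith) (by positivity)
  nlinarith

/-- `f = m - 1`, `e = 0` -/
lemma case4 {p s t N A B : ℤ} (hp : 3 ≤ p) (hs : 1 ≤ s) (ht : p ≤ t) (hst : t = (p - 1) * s + 1)
    (hN : p < N) (hA : 0 < A) (h1 : 2 * A ≤ N) (h2 : 2 * B ≤ N)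
    (h : (N - p) * (s + t + p * t) = 1 + A + B * (p * t)) : False := by
  have hp0 : 0 < p := by linarith
  have ht0 : 0 < t := by linarith
  have hlt : N < 2 * p := case3a hp hs ht (by nlinarith) h2 h
  have hS : (p - 1) * (s + t + p * t) = p * (p * t) - 1 := by rw [hst]; ring
  have h3 : (p - 1) * (1 + A) + (N - p) = p * t * ((N - p) * p - (p - 1) * B) := by
    have h4 : (N - p) * ((p - 1) * (s + t + p * t)) = (p - 1) * (1 + A + B * (p * t)) := by
      rw [← h]; ring
    rw [hS] at h4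
    linarith
  have hpos : 0 < (p - 1) * (1 + A) + (N - p) := by nlinarith
  have hA' : A ≤ p - 1 := by omega
  have hpt : 0 < p * t := by positivity
  have hpp : p * p ≤ p * t := mul_le_mul_of_nonneg_left ht hp0.le
  have hle : (p - 1) * (1 + A) + (N - p) < p * t := by nlinarith
  rw [h3] at hpos hle
  have h5 : 0 < (N - p) * p - (p - 1) * B := (pos_iff_pos_of_mul_pos hpos).1 hpt
  nlinarith

/-- `f = m - 1`, `1 ≤ e ≤ m - 2`, after `N = p + 1` and `e = 1` -/
lemma case3b {p s t A B : ℤ} (hp : 3 ≤ p) (hs : 1 ≤ s) (ht : p ≤ t) (hst : t = (p - 1) * s + 1)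
    (hA : 0 < A) (hB : 0 < B) (h1 : 2 * A ≤ p + 1)
    (h : s + t + p * t = 1 + A * p + B * (p * t)) : B = 1 ∧ t < p * p := by
  have hp0 : 0 < p := by linarith
  have ht0 : 0 < t := by linarith
  have hs' : s < t := by nlinarith
  have hB1 : B = 1 := by
    by_contra hne
    have h2 : 2 ≤ B := by omega
    have h3 : 2 * (p * t) ≤ B * (p * t) := mul_le_mul_of_nonneg_right h2 (by positivity)
    nlinarith
  refine ⟨hB1, ?_⟩
  subst hB1
  by_contra hcon
  push Not at hcon
  nlinarith

/-- `e = f = m` -/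
lemma case5 {p S T' A H q : ℤ} (hp : 3 ≤ p) (hS : 1 + p + p * p ≤ S) (hT : 1 ≤ T') (hA : 0 < A)
    (h1 : H * A - p - (p - 1) * (A * (1 + q)) = T') (h2 : T' * S = 1 + A * (1 + q))
    (hqH : q ∣ H) (hodd : ¬ q ∣ p) : False := by
  obtain ⟨w, hw⟩ : ∃ w, w = H - (p - 1) * (1 + q) := ⟨_, rfl⟩
  have h3 : p + T' = A * w := by rw [hw, ← h1]; ring
  have hw0 : 0 < w := by
    have : 0 < A * w := by linarith
    exact (pos_iff_pos_of_mul_pos this).1 hA
  have h4 : p * (p + T') ≤ T' * S - 1 := by nlinarith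
  have h5 : p * w ≤ 1 + q := by
    have h6 : A * (p * w) ≤ A * (1 + q) := by
      calc A * (p * w) = p * (A * w) := by ring
        _ = p * (p + T') := by rw [h3]
        _ ≤ _ := by linarith
    exact le_of_mul_le_mul_left h6 hA
  have h6 : q ∣ p - 1 + w := by
    have h7 : p - 1 + w = H - (p - 1) * q := by rw [hw]; ring
    rw [h7]
    exact dvd_sub hqH (Dvd.intro_left _ rfl)
  have h7 : q ≤ p - 1 + w := Int.le_of_dvd (by linarith) h6
  have h8 : w = 1 := by
    by_contra hne
    have : 2 ≤ w := by omega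
    nlinarith
  rw [h8] at h6
  exact hodd (by simpa using h6)

/-- `f = m`, `e ≤ m - 2`: a bound -/
lemma case7a {p s t N B X r : ℤ} (hp : 3 ≤ p) (hs : 1 ≤ s) (ht : p ≤ t) (hr : 1 ≤ r)
    (hr' : r = N - p - (p - 1) * B) (hB : (p + 1) * B ≤ N) (hX : 2 * X ≤ N * t)
    (h : r * (s + t + p * t) = 1 + B + X) : N < p * p := by
  by_contra hcon
  push Not at hcon
  have hp0 : 0 < p := by linarith
  have ht0 : 0 < t := by linarith
  have h1 : 2 * N - p * (p + 1) ≤ (p + 1) * r := by rw [hr']; nlinarith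
  have h2 : r * (1 + t + p * t) ≤ r * (s + t + p * t) :=
    mul_le_mul_of_nonneg_left (by linarith) (by linarith)
  have h3 : 2 * (p + 1) * (r * (1 + t + p * t)) ≤ 2 * (p + 1) * (1 + B + X) :=
    mul_le_mul_of_nonneg_left (by linarith) (by positivity)
  have h4 : (p + 1) * (2 * X) ≤ (p + 1) * (N * t) := mul_le_mul_of_nonneg_left hX (by positivity)
  have h5 : (2 * N - p * (p + 1)) * (2 * (1 + t + p * t)) ≤ (p + 1) * r * (2 * (1 + t + p * t)) :=
    mul_le_mul_of_nonneg_right h1 (by positivity)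
  have h6 : 2 * N + 3 * (N * ((p + 1) * t)) ≤
      2 * ((p + 1) * (p + 1)) + 2 * (p * ((p + 1) * ((p + 1) * t))) := by nlinarith
  have h7 : p * p * ((p + 1) * t) ≤ N * ((p + 1) * t) := mul_le_mul_of_nonneg_right hcon (by positivity)
  have h8 : p * p * ((p + 1) * t) * 3 - 2 * (p * ((p + 1) * ((p + 1) * t))) =
      (p * (p + 1) * t) * (p - 2) := by ring
  have h9 : p * (p + 1) * t * 1 ≤ (p * (p + 1) * t) * (p - 2) :=
    mul_le_mul_of_nonneg_left (by linarith) (by positivity)
  have h10 : p * (p + 1) * p ≤ p * (p + 1) * t := mul_le_mul_of_nonneg_left ht (by positivity)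
  nlinarith

/-- `f = m`, `e = 1` -/
lemma case7b {p s t N A B u : ℤ} (hp : 3 ≤ p) (hs : 1 ≤ s) (ht : p ≤ t) (hst : t = (p - 1) * s + 1)
    (hN : N = 1 + u * p) (hu : 1 ≤ u) (hu' : u < p) (hA : 0 < A) (h1 : 2 * A ≤ N)
    (h : u * (s + t + p * t) = p * t + A + B * (p * t)) : False := by
  have hp0 : 0 < p := by linarith
  have ht0 : 0 < t := by linarith
  have hS : (p - 1) * (s + t) = p * t - 1 := by rw [hst]; ring
  have h2 : u * (s + t) - A = p * t * (1 + B - u) := by nlinarith
  have h3 : u * (s + t) ≤ (p - 1) * (s + t) := mul_le_mul_of_nonneg_right (by linarith) (by linarith)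
  have h4 : u * (1 + p) ≤ u * (s + t) := mul_le_mul_of_nonneg_left (by linarith) (by linarith)
  have hpos : 0 < p * t * (1 + B - u) := by rw [← h2]; nlinarith
  have hpt : 0 < p * t := by positivity
  have h5 : 0 < 1 + B - u := (pos_iff_pos_of_mul_pos hpos).1 hpt
  nlinarith

lemma fin1 {p u R : ℤ} (hR2 : 2 ≤ R) (hRp : R < p) (hfin : u * (p * p - R) = R * (p * p) - 1) :
    False := by
  have h1 : (u - R) * (p * p - R) = R * R - 1 := by linarith
  have h2 : R * R < p * p := by nlinarith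
  have h2' : 0 < p * p - R := by nlinarith
  have h3 : 0 < (p * p - R) * (u - R) := by rw [mul_comm, h1]; nlinarith
  have h4 : 0 < u - R := (pos_iff_pos_of_mul_pos h3).1 h2'
  have h5 : 1 * (p * p - R) ≤ (u - R) * (p * p - R) := mul_le_mul_of_nonneg_right h4 h2'.le
  have h6 : (R + 1) * (R + 1) ≤ p * p := by nlinarith
  nlinarith

lemma fin2 {p t u R : ℤ} (hR2 : 2 ≤ R) (hRp : R < p) (hu : 1 ≤ u) (hn : p * p ≤ t)
    (hfin : u * (p * t - R) = R * (p * p) - 1) : False := by
  have hp0 : 0 < p := by linarith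
  have h1 : p * (p * p) ≤ p * t := mul_le_mul_of_nonneg_left hn hp0.le
  have h0 : p * 1 ≤ p * (p * p) := mul_le_mul_of_nonneg_left (by nlinarith) hp0.le
  have h2 : 1 * (p * t - R) ≤ u * (p * t - R) := mul_le_mul_of_nonneg_right hu (by linarith)
  have h3 : R * (p * p) ≤ (p - 1) * (p * p) := mul_le_mul_of_nonneg_right (by linarith) (by positivity)
  nlinarith

/-- `f = m`, `e = m - 1` -/
lemma case6 {p s t N A B u Q R : ℤ} (hp : 3 ≤ p) (hs : 1 ≤ s) (ht : p ≤ t)
    (hst : t = (p - 1) * s + 1) (hn : t = p ∨ p * p ≤ t)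
    (hN : N = 1 + u * (p * t)) (hN4 : N ≠ 1 + p * p) (hA : 0 < A) (hB : 0 < B) (hu : 1 ≤ u)
    (hQ : N = Q * B) (hR : N = R * A) (hR2 : 2 ≤ R) (hQp : Q ≠ p) (hQ2p : Q ≠ 2 * p)
    (hRQ : R < Q → R ∣ Q) (hr : 1 ≤ N - p - (p - 1) * B)
    (h : u * (s + t + p * t) = p + A + B * p) : False := by
  have hp0 : 0 < p := by linarith
  have ht0 : 0 < t := by linarith
  have hQ1 : p + 1 ≤ Q := by
    have : (p - 1) * B < Q * B := by linarith
    have := lt_of_mul_lt_mul_right this hB.le
    omega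
  have hQ2 : Q < 2 * p := by
    have h2A : 2 * A ≤ N := by rw [hR]; exact mul_le_mul_of_nonneg_right hR2 hA.le
    have h1 : u ≤ u * s := le_mul_of_one_le_right (by linarith) hs
    have h2 : t ≤ u * t := le_mul_of_one_le_left (by linarith) hu
    have : Q * B ≤ 2 * p * B := by nlinarith
    have := le_of_mul_le_mul_right this hB
    omega
  have hRpos : 0 < R := by linarith
  have hQpos : 0 < Q := by linarith
  have hS : (p - 1) * (s + t) = p * t - 1 := by rw [hst]; ring
  have hsp : p + 1 ≤ s + t := by linarith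
  -- the main equation
  obtain ⟨z, hz⟩ : ∃ z, z = R * (Q - p) - Q := ⟨_, rfl⟩
  have hE : u * (Q * R * (s + t) + p * t * z) = Q * R * (p + 1) - z := by
    have h1 : Q * R * (u * (s + t + p * t)) = Q * R * p + Q * (R * A) + R * p * (Q * B) := by
      rw [h]; ring
    rw [← hR, ← hQ, hN] at h1
    rw [hz]
    linarith
  have hQR : 0 < Q * R := by positivity
  have hpt : 0 < p * t := by positivity
  rcases le_or_gt 0 z with hz0 | hz0
  · have h1 : Q * R * (p + 1) ≤ Q * R * (s + t) := mul_le_mul_of_nonneg_left hsp hQR.le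
    have h2 : 0 ≤ p * t * z := by positivity
    have h3 : 1 * (Q * R * (s + t) + p * t * z) ≤ u * (Q * R * (s + t) + p * t * z) :=
      mul_le_mul_of_nonneg_right hu (by positivity)
    have hz1 : z = 0 := by linarith
    rw [hz1] at hE h3
    simp only [mul_zero, add_zero, sub_zero, one_mul] at hE h3
    have hst1 : s + t = p + 1 := by
      have : Q * R * (s + t) ≤ Q * R * (p + 1) := by linarith
      have := le_of_mul_le_mul_left this hQR
      linarith
    have hu1 : u = 1 := by
      rw [hst1] at hE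
      have h5 : 0 < Q * R * (p + 1) := by positivity
      have h6 : (u - 1) * (Q * R * (p + 1)) = 0 := by linarith
      rcases mul_eq_zero.1 h6 with h7 | h7
      · linarith
      · linarith
    apply hN4
    have : t = p := by linarith
    rw [hN, hu1, this]; ring
  · have hD : R * (Q - p) < Q := by linarith
    have hRlt : R < Q := by
      have : R * 1 ≤ R * (Q - p) := mul_le_mul_of_nonneg_left (by linarith) hRpos.le
      linarith
    obtain ⟨Q', hQ'⟩ := hRQ hRlt
    obtain ⟨D, hDd⟩ : ∃ D, D = Q - p := ⟨_, rfl⟩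
    have hD1 : 1 ≤ D := by linarith
    rw [← hDd] at hD hz
    have hDQ : D < Q' := by
      have : R * D < R * Q' := by rw [← hQ']; exact hD
      exact lt_of_mul_lt_mul_left this hRpos.le
    have hW : 0 < u * (Q * R * (s + t) + p * t * z) := by
      rw [hE]
      have : 0 < Q * R * (p + 1) := by positivity
      linarith
    have hW' : 0 < Q * R * (s + t) + p * t * z := (pos_iff_pos_of_mul_pos hW).1 (by linarith)
    have hW2 : (p - 1) * (Q * R * (s + t) + p * t * z) =
        p * t * (p * (R * (D + 1)) - (p - 1) * Q) - Q * R := by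
      have : (p - 1) * (Q * R * (s + t) + p * t * z) =
        Q * R * ((p - 1) * (s + t)) + p * t * ((p - 1) * z) := by ring
      rw [this, hS, hz]
      have hq : Q = p + D := by linarith
      rw [hq]; ring
    have hZ : 0 < p * (R * (D + 1)) - (p - 1) * Q := by
      have h1 : 0 < (p - 1) * (Q * R * (s + t) + p * t * z) := mul_pos (by linarith) hW'
      rw [hW2] at h1
      have h2 : 0 < p * t * (p * (R * (D + 1)) - (p - 1) * Q) := by linarith
      exact (pos_iff_pos_of_mul_pos h2).1 hpt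
    have hD2 : Q - 1 ≤ R * (D + 1) := by
      have : p * (Q - 2) < p * (R * (D + 1)) := by nlinarith
      have := lt_of_mul_lt_mul_left this hp0.le
      linarith
    have hDQ2 : D + 1 = Q' := by
      have h1 : R * (Q' - 1) < R * (D + 1) := by
        have : R * (Q' - 1) = Q - R := by rw [hQ']; ring
        rw [this]; linarith
      have h2 := lt_of_mul_lt_mul_left h1 hRpos.le
      linarith
    have hQR1 : R * (D + 1) = Q := by rw [hDQ2, ← hQ']
    have hz1 : z = -R := by rw [hz]; linarith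
    have hRp : R < p := by
      have : 2 * R ≤ Q := by rw [← hQR1]; nlinarith
      linarith
    have hfin : u * (p * t - R) = R * (p * p) - 1 := by
      have h1 : (p - 1) * (u * (Q * R * (s + t) + p * t * z)) =
          (p - 1) * (Q * R * (p + 1) - z) := by rw [hE]
      have h2 : (p - 1) * (u * (Q * R * (s + t) + p * t * z)) =
          u * ((p - 1) * (Q * R * (s + t) + p * t * z)) := by ring
      rw [h2, hW2, hz1, hQR1] at h1
      have hq : Q = p + D := by linarith
      have h3 : (p - 1) * (Q * R * (p + 1) - -R) = Q * (R * (p * p) - 1) := by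
        have h4 : (p - 1) * (Q * R * (p + 1) - -R) =
          Q * (R * (p * p)) - R * (Q - p + 1) := by ring
        rw [h4, ← hDd, hQR1]; ring
      rw [h3] at h1
      have h5 : Q * (u * (p * t - R)) = Q * (R * (p * p) - 1) := by rw [← h1]; ring
      exact mul_left_cancel₀ hQpos.ne' h5
    rcases hn with hn | hn
    · rw [hn] at hfin
      exact fin1 hR2 hRp hfin
    · exact fin2 hR2 hRp hu hn hfin

end Pool.Agent.K7.H65.NearPerfect
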