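import Pool.Agent.K7.H65.NearPerfect

set_option autoImplicit false

/-! # The equation for `2`-near perfect numbers `2 ^ k p ^ m`, `m ≥ 3`: all the cases -/

namespace Pool.Agent.K7.H65.NearPerfect

open Finset

/-- The ordered case `e ≤ f`. -/
lemma core_le (p k a b e f n : ℕ) (hp3 : 3 ≤ p) (hodd : Odd p) (hk : 1 ≤ k) (ha : a ≤ k) (hb : b ≤ k)
    (hef : e ≤ f) (hf : f ≤ n + 3) (hne : (2 : ℤ) ^ a * (p : ℤ) ^ e ≠ 2 ^ b * (p : ℤ) ^ f)
    (h : ((2 : ℤ) ^ (k + 1) - p) * (∑ i ∈ range (n + 3), (p : ℤ) ^ i) =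
      1 + 2 ^ a * (p : ℤ) ^ e + 2 ^ b * (p : ℤ) ^ f) : n = 0 ∧ (2 : ℤ) ^ (k + 1) = p + 1 := by
  obtain ⟨s, hs⟩ : ∃ s : ℤ, s = ∑ i ∈ range (n + 1), (p : ℤ) ^ i := ⟨_, rfl⟩
  obtain ⟨t, ht⟩ : ∃ t : ℤ, t = (p : ℤ) ^ (n + 1) := ⟨_, rfl⟩
  obtain ⟨N, hN⟩ : ∃ N : ℤ, N = 2 ^ (k + 1) := ⟨_, rfl⟩
  obtain ⟨A, hA⟩ : ∃ A : ℤ, A = 2 ^ a := ⟨_, rfl⟩
  obtain ⟨B, hB⟩ : ∃ B : ℤ, B = 2 ^ b := ⟨_, rfl⟩
  obtain ⟨P, hP⟩ : ∃ P : ℤ, P = (p : ℤ) := ⟨_, rfl⟩
  have hP3 : 3 ≤ P := by rw [hP]; exact_mod_cast hp3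
  have hP0 : 0 < P := by linarith
  have hPodd : Odd P := by rw [hP]; exact_mod_cast hodd
  have hS : ∑ i ∈ range (n + 3), (p : ℤ) ^ i = s + t + P * t := by
    rw [show n + 3 = (n + 1) + 1 + 1 by ring, sum_range_succ, sum_range_succ, ← hs, ht, hP]
    ring
  have hst : t = (P - 1) * s + 1 := by
    have := geom_sum_mul (p : ℤ) (n + 1)
    rw [ht, hs, hP]; linarith
  have hs1 : 1 ≤ s := by
    rw [hs, sum_range_succ']
    have : 0 ≤ ∑ i ∈ range n, (p : ℤ) ^ (i + 1) := sum_nonneg fun i _ => by positivity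
    simpa using this
  have htp : P ≤ t := by
    rw [ht, hP]
    calc (p : ℤ) = (p : ℤ) ^ 1 := (pow_one _).symm
      _ ≤ (p : ℤ) ^ (n + 1) := pow_le_pow_right₀ (by exact_mod_cast (by omega : 1 ≤ p)) (by omega)
  have ht0 : 0 < t := by linarith
  have hA0 : 0 < A := by rw [hA]; positivity
  have hB0 : 0 < B := by rw [hB]; positivity
  have h2A : 2 * A ≤ N := by
    rw [hA, hN, ← pow_succ']; exact pow_le_pow_right₀ (by norm_num) (by omega)
  have h2B : 2 * B ≤ N := by
    rw [hB, hN, ← pow_succ']; exact pow_le_pow_right₀ (by norm_num) (by omega)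
  rw [hS, ← hN, ← hA, ← hB, ← hP] at h
  rw [← hA, ← hB, ← hP] at hne
  rw [← hN, ← hP]
  have hpe0 : 0 < P ^ e := by positivity
  have hpf0 : 0 < P ^ f := by positivity
  have hS0 : 0 < s + t + P * t := by positivity
  have hNp : P < N := by
    have h1 : 0 < (N - P) * (s + t + P * t) := by rw [h]; positivity
    have := (pos_iff_pos_of_mul_pos h1).2 hS0
    linarith
  have hpm : P ^ (n + 3) = P * (P * t) := by rw [ht, hP]; ring
  have hpS : (P - 1) * (s + t + P * t) = P * (P * t) - 1 := by rw [hst]; ring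
  -- `p ^ e` divides `N - 1`
  have hdvd : P ^ e ∣ N - 1 := by
    have h1 : P ^ e ∣ (N - 1) * (s + t + P * t) := by
      have h2 : (N - 1) * (s + t + P * t) = P ^ (n + 3) + A * P ^ e + B * P ^ f := by
        rw [hpm]; linarith
      rw [h2]
      exact dvd_add (dvd_add (pow_dvd_pow _ (by omega)) (Dvd.intro_left _ rfl))
        ((pow_dvd_pow _ hef).mul_left _)
    have h3 : IsCoprime (P ^ e) (s + t + P * t) := by
      have h4 : IsCoprime (P ^ (n + 3)) (s + t + P * t) := ⟨1, 1 - P, by rw [hpm]; linarith⟩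
      exact IsCoprime.of_isCoprime_of_dvd_left h4 (pow_dvd_pow _ (by omega))
    exact h3.dvd_of_dvd_mul_right h1
  have hAB : e = f → 4 * (A + B) ≤ 3 * N := by
    intro hef'
    have hab : a ≠ b := by
      rintro rfl
      apply hne
      rw [hA, hB, hef']
    rcases lt_or_gt_of_ne hab with hlt | hlt
    · have : 4 * A ≤ N := by
        rw [hA, hN, show (4 : ℤ) = 2 ^ 2 by norm_num, ← pow_add]
        exact pow_le_pow_right₀ (by norm_num) (by omega)
      linarith
    · have : 4 * B ≤ N := by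
        rw [hB, hN, show (4 : ℤ) = 2 ^ 2 by norm_num, ← pow_add]
        exact pow_le_pow_right₀ (by norm_num) (by omega)
      linarith
  have hXt : ∀ {c : ℤ} {j : ℕ}, 0 < c → 2 * c ≤ N → j ≤ n + 1 → 2 * (c * P ^ j) ≤ N * t := by
    intro c j hc0 hc hj
    have h1 : P ^ j ≤ t := by
      rw [ht, ← hP]; exact pow_le_pow_right₀ (by linarith) hj
    calc 2 * (c * P ^ j) = 2 * c * P ^ j := by ring
      _ ≤ N * P ^ j := mul_le_mul_of_nonneg_right hc (by positivity)
      _ ≤ N * t := mul_le_mul_of_nonneg_left h1 (by linarith)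
  have hNpos : 0 < N - 1 := by linarith
  rcases Nat.lt_or_ge f (n + 2) with hf2 | hf2
  · exact (case1 hP3 hs1 htp hNp (hXt hA0 h2A (by omega)) (hXt hB0 h2B (by omega)) hne
      (by rw [h])).elim
  rcases Nat.lt_or_ge f (n + 3) with hf3 | hf3
  · -- `f = m - 1`
    have hfe : f = n + 2 := by omega
    have hpf : P ^ f = P * t := by rw [hfe, ht, hP]; ring
    rw [hpf] at h
    rcases Nat.lt_or_ge e (n + 2) with he2 | he2
    · rcases Nat.eq_zero_or_pos e with he0 | he0
      · rw [he0, pow_zero, mul_one] at h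
        exact (case4 hP3 hs1 htp hst hNp hA0 h2A h2B h).elim
      · have hlt := case3a hP3 hs1 htp (hXt hA0 h2A (by omega : e ≤ n + 1)) h2B h
        have hpd : P ∣ N - 1 := (dvd_pow_self P he0.ne').trans hdvd
        obtain ⟨u, hu⟩ := hpd
        have hu1 : u = 1 := by
          have h1 : 0 < P * u := by rw [← hu]; exact hNpos
          have h2 : 0 < u := (pos_iff_pos_of_mul_pos h1).1 hP0
          have h3 : P * u < P * 2 := by linarith
          have h4 := lt_of_mul_lt_mul_left h3 hP0.le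
          omega
        rw [hu1, mul_one] at hu
        have hNe : N = P + 1 := by linarith
        have he1 : e = 1 := by
          by_contra hne1
          have h1 : P ^ 2 ∣ P := by
            have h0 := (pow_dvd_pow P (show 2 ≤ e by omega)).trans hdvd
            rwa [hu] at h0
          have h2 := Int.le_of_dvd hP0 h1
          nlinarith
        rw [hNe, he1, pow_one] at h
        have h5 : s + t + P * t = 1 + A * P + B * (P * t) := by
          rw [← h]; ring
        obtain ⟨-, h6⟩ := case3b hP3 hs1 htp hst hA0 hB0 (by rw [← hNe]; exact h2A) h5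
        refine ⟨?_, hNe⟩
        by_contra hn0
        have h7 : P ^ 2 ≤ t := by
          rw [ht, ← hP]; exact pow_le_pow_right₀ (by linarith) (by omega)
        nlinarith
    · -- `e = f = m - 1`
      have hee : e = f := by omega
      have h1 : P * t ≤ N - 1 := by
        rw [← hpf, ← hee]; exact Int.le_of_dvd hNpos hdvd
      rw [hee, hpf] at h
      exact (case2 hP3 hs1 htp (by linarith) (hAB hee) (by rw [h]; ring)).elim
  · -- `f = m`
    have hfe : f = n + 3 := by omega
    have hpf : P ^ f = P * (P * t) := by rw [hfe, hpm]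
    rw [hpf] at h
    obtain ⟨r, hr⟩ : ∃ r : ℤ, r = N - P - (P - 1) * B := ⟨_, rfl⟩
    have hrS : r * (s + t + P * t) = 1 + B + A * P ^ e := by
      have : r * (s + t + P * t) = (N - P) * (s + t + P * t) - B * ((P - 1) * (s + t + P * t)) := by
        rw [hr]; ring
      rw [this, h, hpS]; ring
    have hr1 : 1 ≤ r := by
      have h1 : 0 < r * (s + t + P * t) := by rw [hrS]; positivity
      have := (pos_iff_pos_of_mul_pos h1).2 hS0
      omega
    obtain ⟨x, hx, hNQ⟩ : ∃ x : ℕ, x = k + 1 - b ∧ N = 2 ^ x * B := by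
      refine ⟨_, rfl, ?_⟩
      rw [hN, hB, ← pow_add]; congr 1; omega
    have hx1 : 1 ≤ x := by omega
    have hQp : (2 : ℤ) ^ x ≠ P := by
      intro hc
      rw [← hc] at hPodd
      exact (Int.not_even_iff_odd.2 hPodd) ((even_two.pow_of_ne_zero (by omega)))
    have hQ1 : P + 1 ≤ 2 ^ x := by
      have h1 : (P - 1) * B < 2 ^ x * B := by rw [← hNQ]; linarith
      have h2 := lt_of_mul_lt_mul_right h1 hB0.le
      omega
    have hBN : (P + 1) * B ≤ N := by
      rw [hNQ]; exact mul_le_mul_of_nonneg_right hQ1 hB0.le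
    have hE1 : (N - 1) * (s + t + P * t) = P * (P * t) + A * P ^ e + B * (P * (P * t)) := by
      linarith
    rcases Nat.lt_or_ge e (n + 2) with he2 | he2
    · have hlt := case7a hP3 hs1 htp hr1 hr hBN (hXt hA0 h2A (by omega : e ≤ n + 1)) hrS
      rcases Nat.lt_or_ge e 2 with he | he
      · interval_cases e
        · rw [pow_zero, mul_one] at hrS
          have h1 : 1 * (s + t + P * t) ≤ r * (s + t + P * t) :=
            mul_le_mul_of_nonneg_right hr1 hS0.le
          have h2 : P * P ≤ P * t := mul_le_mul_of_nonneg_left htp hP0.le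
          exfalso; linarith
        · rw [pow_one] at hdvd hE1
          obtain ⟨u, hu⟩ := hdvd
          have h1 : 0 < P * u := by rw [← hu]; exact hNpos
          have h2 : 0 < u := (pos_iff_pos_of_mul_pos h1).1 hP0
          have h3 : u < P := by
            have : P * u < P * P := by linarith
            exact lt_of_mul_lt_mul_left this hP0.le
          have h4 : u * (s + t + P * t) = P * t + A + B * (P * t) := by
            have : P * (u * (s + t + P * t)) = P * (P * t + A + B * (P * t)) := by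
              rw [hu] at hE1; linarith
            exact mul_left_cancel₀ hP0.ne' this
          exact (case7b hP3 hs1 htp hst (by linarith) h2 h3 hA0 h2A h4).elim
      · have h1 : P ^ 2 ≤ N - 1 :=
          Int.le_of_dvd hNpos ((pow_dvd_pow P he).trans hdvd)
        exfalso; nlinarith
    rcases Nat.lt_or_ge e (n + 3) with he3 | he3
    · -- `e = m - 1`
      have hee : e = n + 2 := by omega
      have hpe : P ^ e = P * t := by rw [hee, ht, hP]; ring
      rw [hpe] at hdvd hE1
      obtain ⟨u, hu⟩ := hdvd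
      have hpt0 : 0 < P * t := by positivity
      have h1 : 0 < P * t * u := by rw [← hu]; exact hNpos
      have h2 : 0 < u := (pos_iff_pos_of_mul_pos h1).1 hpt0
      have h4 : u * (s + t + P * t) = P + A + B * P := by
        have : P * t * (u * (s + t + P * t)) = P * t * (P + A + B * P) := by
          rw [hu] at hE1; linarith
        exact mul_left_cancel₀ hpt0.ne' this
      obtain ⟨y, hy, hNR⟩ : ∃ y : ℕ, y = k + 1 - a ∧ N = 2 ^ y * A := by
        refine ⟨_, rfl, ?_⟩
        rw [hN, hA, ← pow_add]; congr 1; omega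
      have hR2 : (2 : ℤ) ≤ 2 ^ y := by
        calc (2 : ℤ) = 2 ^ 1 := by norm_num
          _ ≤ 2 ^ y := pow_le_pow_right₀ (by norm_num) (by omega)
      have hQ2p : (2 : ℤ) ^ x ≠ 2 * P := by
        intro hc
        obtain ⟨x', rfl⟩ : ∃ x', x = x' + 1 := ⟨x - 1, by omega⟩
        rw [pow_succ'] at hc
        have hc' : (2 : ℤ) ^ x' = P := by linarith
        rcases Nat.eq_zero_or_pos x' with h0 | h0
        · rw [h0, pow_zero] at hc'; linarith
        · rw [← hc'] at hPodd
          exact (Int.not_even_iff_odd.2 hPodd) ((even_two.pow_of_ne_zero (by omega)))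
      have hRQ : (2 : ℤ) ^ y < 2 ^ x → (2 : ℤ) ^ y ∣ 2 ^ x := by
        intro hlt
        exact pow_dvd_pow _ ((pow_lt_pow_iff_right₀ (by norm_num)).1 hlt).le
      have hN4 : N ≠ 1 + P * P := by
        intro hc
        obtain ⟨w, hw⟩ := hPodd
        have h4 : (4 : ℤ) ∣ N := by
          rw [hN, show (4 : ℤ) = 2 ^ 2 by norm_num]; exact pow_dvd_pow _ (by omega)
        rw [hc, hw] at h4
        have : (1 + (2 * w + 1) * (2 * w + 1) : ℤ) = 4 * (w * w + w) + 2 := by ring
        omega
      have hn : t = P ∨ P * P ≤ t := by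
        rcases Nat.eq_zero_or_pos n with h0 | h0
        · left; rw [ht, h0, hP]; ring
        · right
          rw [ht, ← hP, ← pow_two]; exact pow_le_pow_right₀ (by linarith) (by omega)
      exact (case6 hP3 hs1 htp hst hn (by linarith) hN4 hA0 hB0 h2 hNQ hNR hR2 hQp hQ2p hRQ
        (by linarith) h4).elim
    · -- `e = f = m`
      have hee : e = n + 3 := by omega
      have hpe : P ^ e = P * (P * t) := by rw [hee, hpm]
      rw [hpe] at hrS
      have hab : a ≠ b := by
        rintro rfl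
        apply hne
        rw [hA, hB, hee, hfe]
      have hSp : 1 + P + P * P ≤ s + t + P * t := by
        have h2 : P * P ≤ P * t := mul_le_mul_of_nonneg_left htp hP0.le
        linarith
      obtain ⟨T', hT'⟩ : ∃ T' : ℤ, T' = N - P - (P - 1) * (A + B) := ⟨_, rfl⟩
      have hT'S : T' * (s + t + P * t) = 1 + (A + B) := by
        have : T' * (s + t + P * t) = r * (s + t + P * t) - A * ((P - 1) * (s + t + P * t)) := by
          rw [hT', hr]; ring
        rw [this, hrS, hpS]; ring
      have hT1 : 1 ≤ T' := by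
        have h1 : 0 < T' * (s + t + P * t) := by rw [hT'S]; positivity
        have := (pos_iff_pos_of_mul_pos h1).2 hS0
        omega
      have key : ∀ {i j : ℕ}, i < j → j ≤ k → N - P - (P - 1) * (2 ^ i + 2 ^ j) = T' →
          T' * (s + t + P * t) = 1 + (2 ^ i + 2 ^ j) → False := by
        intro i j hij hj h1 h2
        obtain ⟨c, hc⟩ : ∃ c, j = i + c := ⟨j - i, by omega⟩
        have hHA : (2 : ℤ) ^ (k + 1 - i) * 2 ^ i = N := by
          rw [hN, ← pow_add]; congr 1; omega
        refine case5 (p := P) (S := s + t + P * t) (T' := T') (A := 2 ^ i) (H := 2 ^ (k + 1 - i))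
          (q := 2 ^ c) hP3 hSp hT1 (by positivity) ?_ ?_ (pow_dvd_pow _ (by omega)) ?_
        · rw [hHA, ← h1, hc, pow_add]; ring
        · rw [h2, hc, pow_add]; ring
        · intro hd
          have h3 : (2 : ℤ) ∣ P := (dvd_pow_self 2 (by omega)).trans hd
          exact (Int.not_even_iff_odd.2 hPodd) (even_iff_two_dvd.2 h3)
      rcases lt_or_gt_of_ne hab with hlt | hlt
      · exact (key hlt hb (by rw [hT', hA, hB]) (by rw [hT'S, hA, hB])).elim
      · exact (key hlt ha (by rw [hT', hA, hB]; ring) (by rw [hT'S, hA, hB]; ring)).elim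

/-- All the solutions of the equation. -/
theorem core (p k a b e f n : ℕ) (hp3 : 3 ≤ p) (hodd : Odd p) (hk : 1 ≤ k) (ha : a ≤ k) (hb : b ≤ k)
    (he : e ≤ n + 3) (hf : f ≤ n + 3) (hne : (2 : ℤ) ^ a * (p : ℤ) ^ e ≠ 2 ^ b * (p : ℤ) ^ f)
    (h : ((2 : ℤ) ^ (k + 1) - p) * (∑ i ∈ range (n + 3), (p : ℤ) ^ i) =
      1 + 2 ^ a * (p : ℤ) ^ e + 2 ^ b * (p : ℤ) ^ f) : n = 0 ∧ (2 : ℤ) ^ (k + 1) = p + 1 := by
  rcases le_total e f with hef | hef
  · exact core_le p k a b e f n hp3 hodd hk ha hb hef hf hne h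
  · exact core_le p k b a f e n hp3 hodd hk hb ha hef he hne.symm (by rw [h]; ring)

end Pool.Agent.K7.H65.NearPerfect
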