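import Mathlib
import Pool.Agent.K7.H81.PD.Stm3
import Pool.Agent.K7.H81.PD.Fin
import Pool.Agent.K7.H71.PD_UNI

set_option autoImplicit false

open MeasureTheory Filter Topology
open scoped ContDiff

namespace Pool.Agent.K7.H65.PDUNI3

open Pool.Agent.K7.H81.PD Pool.Agent.K7.H71.PDUNI

theorem t : StUni3 := by
  intro N Ω h _ hO hbd hS hh hz
  have hA : ∀ g, Cci Ω g → (∀ x, 0 ≤ g x) → ∫ x in Ω, h x * g x = 0 := by
    intro g hg h0
    have hbound : ∀ ε : ℝ, 0 < ε → |∫ x in Ω, h x * g x| ≤ (2 * ε) * ∫ x in Ω, |h x| := by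
      intro ε hε
      obtain ⟨ζ, hζ1, hζ2⟩ := hS (fun x => g x + ε) (hg.1.add contDiff_const) ε hε
      have h1 := hz ζ hζ1 fun x hx => by
        have h2 := (abs_le.1 (hζ2 x hx)).2
        have h3 := h0 x
        linarith
      have i1 := int_mul hO hbd hh (contDiff_lap hζ1.1).continuous
      have i2 := intg hh hg
      have e1 : ∫ x in Ω, h x * g x = ∫ x in Ω, (h x * g x + h x * lap ζ x) := by
        rw [integral_add i2 i1, h1, add_zero]
      rw [e1]
      have i3 : Integrable (fun x => (2 * ε) * |h x|) (volume.restrict Ω) :=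
        (Integrable.abs hh).const_mul _
      have h4 : ∀ᵐ x ∂(volume.restrict Ω), ‖h x * g x + h x * lap ζ x‖ ≤ (2 * ε) * |h x| := by
        filter_upwards [ae_restrict_mem hO.measurableSet] with x hx
        have h5 := abs_le.1 (hζ2 x hx)
        have h6 : |g x + lap ζ x| ≤ 2 * ε := abs_le.2 ⟨by linarith [h5.1], by linarith [h5.2]⟩
        rw [← mul_add, norm_mul, Real.norm_eq_abs, Real.norm_eq_abs, mul_comm]
        exact mul_le_mul_of_nonneg_right h6 (abs_nonneg _)
      have h7 := norm_integral_le_of_norm_le i3 h4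
      rw [integral_const_mul, Real.norm_eq_abs] at h7
      exact h7
    by_contra hne
    have hpos : 0 < |∫ x in Ω, h x * g x| := abs_pos.2 hne
    have hI : 0 ≤ ∫ x in Ω, |h x| := integral_nonneg fun x => abs_nonneg _
    have h8 := hbound (|∫ x in Ω, h x * g x| / (4 * ((∫ x in Ω, |h x|) + 1))) (by positivity)
    have h9 : 2 * (|∫ x in Ω, h x * g x| / (4 * ((∫ x in Ω, |h x|) + 1))) * ∫ x in Ω, |h x| ≤
        |∫ x in Ω, h x * g x| / 2 := by
      rw [mul_div_assoc', div_mul_eq_mul_div, div_le_div_iff₀ (by positivity) (by norm_num)]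
      nlinarith
    linarith
  have hB : ∀ φ ψ, Cci Ω φ → Cci Ω ψ → ∫ x in Ω, h x * φ x * ψ x = 0 := by
    intro φ ψ hφ hψ
    have s1 := add hφ hψ
    have s2 := add hφ (neg hψ)
    have e1 := hA _ (mul s1 s1) fun x => mul_self_nonneg _
    have e2 := hA _ (mul s2 s2) fun x => mul_self_nonneg _
    have i1 := intg hh (mul s1 s1)
    have i2 := intg hh (mul s2 s2)
    have e3 : ∫ x in Ω, h x * φ x * ψ x = ∫ x in Ω, (1 / 4 : ℝ) *
        (h x * ((φ x + ψ x) * (φ x + ψ x)) - h x * ((φ x + -ψ x) * (φ x + -ψ x))) := by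
      refine integral_congr_ae (Eventually.of_forall fun x => ?_)
      simp only
      ring
    rw [e3, integral_const_mul, integral_sub i1 i2, e1, e2]
    simp
  have hC : ∀ φ, Cci Ω φ → ∀ᵐ x, x ∈ Ω → h x * φ x = 0 := by
    intro φ hφ
    refine hO.ae_eq_zero_of_integral_contDiff_smul_eq_zero
      (intg hh hφ).locallyIntegrableOn fun g g1 g2 g3 => ?_
    have hg : Cci Ω g := ⟨g1, g2, g3⟩
    rw [whole hg]
    exact hB φ g hφ hg
  have hD : ∀ᵐ x, x ∈ Ω → h x = 0 := by
    refine hO.ae_eq_zero_of_integral_contDiff_smul_eq_zero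
      hh.locallyIntegrableOn fun g g1 g2 g3 => ?_
    have hg : Cci Ω g := ⟨g1, g2, g3⟩
    rw [whole hg]
    have h1 : ∀ᵐ x ∂(volume.restrict Ω), h x * g x = 0 := by
      rw [ae_restrict_iff' hO.measurableSet]
      exact hC g hg
    rw [integral_congr_ae h1]
    simp
  rw [ae_restrict_iff' hO.measurableSet]
  exact hD

end Pool.Agent.K7.H65.PDUNI3
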