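import Pool.Agent.K7.H16.SG.Stm

set_option autoImplicit false

open Finset

namespace Pool.Agent.K7.H65.SGNUM

open Pool.Agent.K7.H16.SG

lemma c_zero : c 0 = 1 := by rw [c]

/-- the convolution -/
def cv (m : ℕ) : ℚ := ∑ i ∈ range (m + 1), c i * c (m - i)

lemma c_succ (m : ℕ) : c (m + 1) = min (cv m)
    ((1 + 1 / ((m : ℚ) + 1)) / 2 * cv m + c m - c m / ((m : ℚ) + 1)) := by
  have h : ∑ i : Fin (m + 1), c i * c (m - i) = cv m :=
    Fin.sum_univ_eq_sum_range (fun i => c i * c (m - i)) (m + 1)
  rw [c, h]

/-- sums over the power set -/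
lemma pow_sum (A : Finset ℕ) (u v : ℕ → ℚ) :
    ∑ B ∈ A.powerset, (u B.card) * (v (A.card - B.card)) =
      ∑ i ∈ range (A.card + 1), (A.card.choose i : ℚ) * (u i * v (A.card - i)) := by
  rw [Finset.sum_powerset_apply_card (fun i => u i * v (A.card - i))]
  exact sum_congr rfl fun i _ => by rw [nsmul_eq_mul]

lemma fac (k i : ℕ) (hi : i ∈ range (k + 1)) :
    (k.choose i : ℚ) * ((i.factorial : ℚ) * ((k - i).factorial : ℚ)) = (k.factorial : ℚ) := by
  rw [mem_range] at hi
  have h := Nat.choose_mul_factorial_mul_factorial (Nat.lt_succ_iff.1 hi)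
  rw [← h]
  push_cast
  ring

/-- `Σ (p + 1) c_(p+1) c_(k-p)` -/
def tt (k : ℕ) : ℚ := ∑ i ∈ range (k + 1), ((i : ℚ) + 1) * (c (i + 1) * c (k - i))

lemma two_tt (k : ℕ) : 2 * tt k = ((k : ℚ) + 1) * cv (k + 1) := by
  have h1 : tt k = ∑ p ∈ range (k + 1 + 1), (p : ℚ) * (c p * c (k + 1 - p)) := by
    rw [sum_range_succ']
    unfold tt
    rw [Nat.cast_zero, zero_mul, add_zero]
    refine sum_congr rfl fun i _ => ?_
    rw [Nat.add_sub_add_right]
    push_cast
    ring
  have h2 : tt k = ∑ p ∈ range (k + 1 + 1), (((k : ℚ) + 1) - p) * (c p * c (k + 1 - p)) := by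
    rw [h1, ← sum_range_reflect]
    refine sum_congr rfl fun i hi => ?_
    rw [mem_range] at hi
    have e1 : k + 1 + 1 - 1 - i = k + 1 - i := by omega
    have e2 : k + 1 - (k + 1 - i) = i := by omega
    rw [e1, e2, Nat.cast_sub (by omega)]
    push_cast
    ring
  have h3 : 2 * tt k = tt k + tt k := by ring
  rw [h3]
  nth_rewrite 1 [h1]
  rw [h2, ← sum_add_distrib]
  unfold cv
  rw [mul_sum]
  exact sum_congr rfl fun i _ => by ring

theorem t (h1 : StRec1) (h2 : StRec2) (hW : StW) : StNum := by
  have key : ∀ n : ℕ, ∀ A : Finset ℕ, A.card = n → (D A : ℚ) ≤ (n.factorial : ℚ) * c n := by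
    intro n
    induction n using Nat.strong_induction_on with
    | _ n ih =>
      intro A hA
      rcases n with _ | m
      · rw [card_eq_zero] at hA
        subst hA
        rw [hW.2.2.2, c_zero]
        norm_num
      have hne : A.Nonempty := card_pos.1 (by omega)
      obtain ⟨M, A', hMA, hA', hlt⟩ : ∃ (M : ℕ) (A' : Finset ℕ), insert M A' = A ∧ A'.card = m ∧
          ∀ a ∈ A', a < M := by
        refine ⟨A.max' hne, A.erase (A.max' hne), insert_erase (A.max'_mem hne), ?_, ?_⟩
        · rw [card_erase_of_mem (A.max'_mem hne), hA]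
          rfl
        · intro a ha
          exact lt_of_le_of_ne (A.le_max' a (mem_of_mem_erase ha)) (ne_of_mem_erase ha)
      have hb : ∀ (B : Finset ℕ) (k : ℕ), B.card = k → k < m + 1 →
          (D B : ℚ) ≤ (k.factorial : ℚ) * c k := fun B k hB hk => ih k hk B hB
      have h0 : ∀ B : Finset ℕ, (0 : ℚ) ≤ D B := fun B => Nat.cast_nonneg _
      have mulb : ∀ (B C : Finset ℕ) (k l : ℕ), B.card = k → C.card = l → k < m + 1 → l < m + 1 →
          (D B : ℚ) * D C ≤ ((k.factorial : ℚ) * c k) * ((l.factorial : ℚ) * c l) :=
        fun B C k l hB hC hk hl => mul_le_mul (hb B k hB hk) (hb C l hC hl) (h0 C)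
          ((h0 B).trans (hb B k hB hk))
      -- the first bound
      have first : (D A : ℚ) ≤ ((m + 1).factorial : ℚ) * cv m := by
        have e := h1 A' M hlt
        rw [hMA, hA'] at e
        have e' : (D A : ℚ) ≤ ((m : ℚ) + 1) * ∑ B ∈ A'.powerset, (D B : ℚ) * D (A' \ B) := by
          exact_mod_cast e
        refine e'.trans ?_
        have e2 : ∑ B ∈ A'.powerset, (D B : ℚ) * D (A' \ B) ≤ (m.factorial : ℚ) * cv m := by
          calc ∑ B ∈ A'.powerset, (D B : ℚ) * D (A' \ B)
              ≤ ∑ B ∈ A'.powerset, (((B.card).factorial : ℚ) * c B.card) *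
                  (((A'.card - B.card).factorial : ℚ) * c (A'.card - B.card)) := by
                refine sum_le_sum fun B hB => ?_
                rw [mem_powerset] at hB
                have hc := card_le_card hB
                exact mulb B (A' \ B) _ _ rfl (card_sdiff_of_subset hB) (by omega) (by omega)
            _ = _ := by
                rw [pow_sum A' (fun i => (i.factorial : ℚ) * c i) (fun i => (i.factorial : ℚ) * c i),
                  hA']
                unfold cv
                rw [mul_sum]
                refine sum_congr rfl fun i hi => ?_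
                rw [← fac m i hi]
                ring
        calc ((m : ℚ) + 1) * ∑ B ∈ A'.powerset, (D B : ℚ) * D (A' \ B)
            ≤ ((m : ℚ) + 1) * ((m.factorial : ℚ) * cv m) :=
              mul_le_mul_of_nonneg_left e2 (by positivity)
          _ = _ := by
              rw [Nat.factorial_succ]
              push_cast
              ring
      rw [c_succ, mul_min_of_nonneg _ _ (Nat.cast_nonneg _)]
      refine le_min first ?_
      rcases m with _ | k
      · refine first.trans (le_of_eq ?_)
        have : cv 0 = 1 := by
          unfold cv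
          rw [zero_add, sum_range_one, Nat.sub_zero, c_zero]
          norm_num
        rw [this, c_zero]
        norm_num
      -- the second bound
      have hne' : A'.Nonempty := card_pos.1 (by omega)
      obtain ⟨M', A₂, hMA2, hA2, hlt2⟩ : ∃ (M' : ℕ) (A₂ : Finset ℕ), insert M' A₂ = A' ∧
          A₂.card = k ∧ ∀ a ∈ A₂, a < M' := by
        refine ⟨A'.max' hne', A'.erase (A'.max' hne'), insert_erase (A'.max'_mem hne'), ?_, ?_⟩
        · rw [card_erase_of_mem (A'.max'_mem hne'), hA']
          rfl
        · intro a ha
          exact lt_of_le_of_ne (A'.le_max' a (mem_of_mem_erase ha)) (ne_of_mem_erase ha)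
      have hM'M : M' < M := hlt M' (by rw [← hMA2]; exact mem_insert_self _ _)
      have hnot : ∀ B : Finset ℕ, B ⊆ A₂ → M' ∉ B := fun B hB h => lt_irrefl _ (hlt2 M' (hB h))
      have e := h2 A₂ M' M hlt2 hM'M
      rw [hMA2, hMA, hA2] at e
      have e' : (D A : ℚ) ≤ ∑ B ∈ A₂.powerset.erase A₂, (D (insert M' B) : ℚ) * D (A₂ \ B) +
          ((k : ℚ) + 2) * (∑ B ∈ A₂.powerset, (D B : ℚ) * D (insert M' (A₂ \ B)) + D A') := by
        exact_mod_cast e
      refine e'.trans ?_
      have q1 : ∑ B ∈ A₂.powerset.erase A₂, (D (insert M' B) : ℚ) * D (A₂ \ B) ≤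
          (k.factorial : ℚ) * tt k - ((k + 1).factorial : ℚ) * c (k + 1) := by
        calc ∑ B ∈ A₂.powerset.erase A₂, (D (insert M' B) : ℚ) * D (A₂ \ B)
            ≤ ∑ B ∈ A₂.powerset.erase A₂, (((B.card + 1).factorial : ℚ) * c (B.card + 1)) *
                (((A₂.card - B.card).factorial : ℚ) * c (A₂.card - B.card)) := by
              refine sum_le_sum fun B hB => ?_
              have hB' := mem_powerset.1 (mem_of_mem_erase hB)
              have hc := card_le_card hB'
              exact mulb (insert M' B) (A₂ \ B) _ _ (card_insert_of_notMem (hnot B hB'))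
                (card_sdiff_of_subset hB') (by omega) (by omega)
          _ = _ := by
              rw [sum_erase_eq_sub (mem_powerset_self A₂),
                pow_sum A₂ (fun i => ((i + 1).factorial : ℚ) * c (i + 1))
                  (fun i => (i.factorial : ℚ) * c i), hA2, Nat.sub_self, c_zero]
              congr 1
              · unfold tt
                rw [mul_sum]
                refine sum_congr rfl fun i hi => ?_
                rw [← fac k i hi, Nat.factorial_succ]
                push_cast
                ring
              · norm_num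
      have q2 : ∑ B ∈ A₂.powerset, (D B : ℚ) * D (insert M' (A₂ \ B)) ≤
          (k.factorial : ℚ) * tt k := by
        calc ∑ B ∈ A₂.powerset, (D B : ℚ) * D (insert M' (A₂ \ B))
            ≤ ∑ B ∈ A₂.powerset, (((B.card).factorial : ℚ) * c B.card) *
                (((A₂.card - B.card + 1).factorial : ℚ) * c (A₂.card - B.card + 1)) := by
              refine sum_le_sum fun B hB => ?_
              rw [mem_powerset] at hB
              have hc := card_le_card hB
              refine mulb B (insert M' (A₂ \ B)) _ _ rfl ?_ (by omega) (by omega)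
              rw [card_insert_of_notMem (hnot _ sdiff_subset), card_sdiff_of_subset hB]
          _ = _ := by
              rw [pow_sum A₂ (fun i => (i.factorial : ℚ) * c i)
                (fun i => ((i + 1).factorial : ℚ) * c (i + 1)), hA2]
              unfold tt
              rw [mul_sum, ← sum_range_reflect]
              refine sum_congr rfl fun i hi => ?_
              have hi' := mem_range.1 hi
              have e1 : k + 1 - 1 - i = k - i := by omega
              have e2 : k - (k - i) = i := by omega
              have hi2 : k - i ∈ range (k + 1) := mem_range.2 (by omega)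
              have hf := fac k (k - i) hi2
              rw [e2] at hf
              rw [e1, e2, ← hf, Nat.factorial_succ]
              push_cast
              ring
      have q3 : (D A' : ℚ) ≤ ((k + 1).factorial : ℚ) * c (k + 1) := hb A' (k + 1) hA' (by omega)
      calc ∑ B ∈ A₂.powerset.erase A₂, (D (insert M' B) : ℚ) * D (A₂ \ B) +
            ((k : ℚ) + 2) * (∑ B ∈ A₂.powerset, (D B : ℚ) * D (insert M' (A₂ \ B)) + D A')
          ≤ ((k.factorial : ℚ) * tt k - ((k + 1).factorial : ℚ) * c (k + 1)) +
            ((k : ℚ) + 2) * ((k.factorial : ℚ) * tt k + ((k + 1).factorial : ℚ) * c (k + 1)) :=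
            add_le_add q1 (mul_le_mul_of_nonneg_left (add_le_add q2 q3) (by positivity))
        _ = _ := by
            have hT := two_tt k
            have hT' : tt k = ((k : ℚ) + 1) * cv (k + 1) / 2 := by linarith
            have hk2 : (k : ℚ) + 1 + 1 ≠ 0 := by positivity
            rw [hT', Nat.factorial_succ (k + 1), Nat.factorial_succ k]
            push_cast
            field_simp
            ring
  exact fun A => key A.card A rfl

end Pool.Agent.K7.H65.SGNUM
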