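import Pool.Agent.K7.H16.SG.Stm

set_option autoImplicit false

open Finset

namespace Pool.Agent.K7.H65.SGW

open Pool.Agent.K7.H16.SG

theorem t : StW := by
  have hmem : ∀ (A : Finset ℕ) (w : List ℕ), w ∈ words A ↔ w.Nodup ∧ w.toFinset = A := by
    intro A w
    unfold words
    rw [List.mem_toFinset, List.mem_permutations]
    constructor
    · intro h
      refine ⟨(h.nodup_iff).2 A.nodup_toList, ?_⟩
      rw [List.toFinset_eq_of_perm _ _ h, Finset.toList_toFinset]
    · rintro ⟨h1, h2⟩
      refine List.perm_of_nodup_nodup_toFinset_eq h1 A.nodup_toList ?_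
      rw [Finset.toList_toFinset, h2]
  have hw : words ∅ = {[]} := by
    ext w
    rw [hmem, mem_singleton, List.toFinset_eq_empty_iff]
    constructor
    · exact fun h => h.2
    · rintro rfl
      exact ⟨List.nodup_nil, rfl⟩
  have hs : s [] = [] := rfl
  have hf : f [] = 1 := by
    unfold f
    rw [List.toFinset_nil, hw, filter_singleton, if_pos hs, card_singleton]
  refine ⟨hmem, hw, hf, ?_⟩
  unfold D
  rw [hw, sum_singleton, hf]
  rfl

end Pool.Agent.K7.H65.SGW
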